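import Pool.Agent.helper12.KZ.Spec

/-!
Row `kz:KRL`: the relation modulo `l * e`.
-/

set_option autoImplicit false

namespace Pool.Agent.KZ

open Pool.Agent.helper58.DC Pool.Agent.DI Pool.Agent.TY

theorem KRL_range {G Γ A' : Type} [Group G] [Group Γ] [Group A'] (X : Extension G Γ A') :
    X.inc.range = X.proj.ker := by
  ext x
  rw [MonoidHom.mem_ker, X.exact]
  rfl

theorem KRL_idx {G Γ A' A : Type} [Group G] [Group Γ] [Group A'] [Group A]
    (X : Extension G Γ A') (ρ : A' →* A) :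
    X.inc.range.relIndex (ρ.comp X.proj).ker = Nat.card ρ.ker := by
  rw [KRL_range X, Subgroup.relIndex_ker]
  have h : (ρ.comp X.proj).ker.map X.proj = ρ.ker := by
    have h1 : (ρ.comp X.proj).ker = ρ.ker.comap X.proj := rfl
    rw [h1, Subgroup.map_comap_eq_self_of_surjective X.proj_surjective]
  rw [h]

theorem KRL_le {G Γ A' A : Type} [Group G] [Group Γ] [Group A'] [Group A]
    (X : Extension G Γ A') (ρ : A' →* A) : X.inc.range ≤ (ρ.comp X.proj).ker := by
  rw [KRL_range X]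
  intro x hx
  rw [MonoidHom.mem_ker] at hx ⊢
  rw [MonoidHom.comp_apply, hx, map_one]

theorem KRL_fr {G Γ A' A : Type} [Group G] [Group Γ] [Group A'] [Group A]
    (X : Extension G Γ A') (ρ : A' →* A) (l : ℕ) (hs : Function.Surjective ρ)
    (hc : Nat.card ρ.ker = l) (hcen : ∀ a : A', ∀ k ∈ ρ.ker, a * k = k * a) :
    Fr l (ρ.comp X.proj) X.inc.range where
  surj := hs.comp X.proj_surjective
  nor := by
    rw [KRL_range X]
    infer_instance
  le := KRL_le X ρ
  idx := by rw [KRL_idx X ρ, hc]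
  cen := by
    intro x h hh
    rw [KRL_range X, MonoidHom.mem_ker, map_mul, map_mul, map_mul, map_inv, map_inv,
      hcen (X.proj x) (X.proj h) hh]
    group

theorem KRL_card {G Γ A' A : Type} [Group G] [Group Γ] [Group A'] [Group A]
    (X : Extension G Γ A') (ρ : A' →* A) (l : ℕ) (hc : Nat.card ρ.ker = l) :
    Nat.card (ρ.comp X.proj).ker = l * Nat.card G := by
  have h1 := Subgroup.relIndex_mul_relIndex (⊥ : Subgroup Γ) X.inc.range (ρ.comp X.proj).ker
    bot_le (KRL_le X ρ)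
  rw [KRL_idx X ρ, hc, Subgroup.relIndex_bot_left, Subgroup.relIndex_bot_left, mul_comm] at h1
  rw [← h1]
  congr 1
  exact Nat.card_congr (Equiv.ofInjective X.inc X.inc_injective).symm

theorem KRL (hKEH : KEH_stmt) (hKDL : KDL_stmt) (hKDP : KDP_stmt) (hKEQ : KEQ_stmt)
    (hKOS : KOS_stmt) (hKCI : KCI_stmt) (hKEG : KEG_stmt) : KRL_stmt := by
  intro G Γ A' A _ _ _ _ _ _ X ρ p l _ _ M hM hp hN hs hc hcen hG hH e hE χ hχ hst d hd
  have hfr := KRL_fr X ρ l hs hc hcen
  have hcard := KRL_card X ρ l hc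
  have hnor : X.inc.range.Normal := hfr.nor
  have hcR : Nat.card X.inc.range = Nat.card G :=
    Nat.card_congr (Equiv.ofInjective X.inc X.inc_injective).symm
  have : Finite A := Finite.of_surjective _ hfr.surj
  obtain ⟨R, hR, hsum⟩ := hKEH Γ A p l M hM hp hN (ρ.comp X.proj) hfr.surj X.inc.range
    (KRL_le X ρ) hH (omega (ext0 X.inc χ)) d
  have hRe : e ∣ ∑ b ∈ R, altSum (XK (ρ.comp X.proj) hfr.surj) p M b d ⊤ :=
    Finset.dvd_sum fun b hb => hE _ _ (XK (ρ.comp X.proj) hfr.surj) hH b (hR b hb) d (by omega)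
  have h1 : ((Nat.card A : ℤ) * (Nat.card G : ℤ)) * ((l : ℤ) * e) ∣
      cSum p (ρ.comp X.proj).ker ⊥ ⊤
        (gst p M (ρ.comp X.proj) X.inc.range (omega (ext0 X.inc χ)) d) := by
    rw [hsum, hcard]
    obtain ⟨m, hm⟩ := hRe
    rw [hm]
    refine ⟨m, ?_⟩
    push_cast
    ring
  have h2 : ((Nat.card A : ℤ) * (Nat.card G : ℤ)) * ((l : ℤ) * e) ∣
      cSum p X.inc.range ⊥ ⊤
        (gst p M (ρ.comp X.proj) X.inc.range (omega (ext0 X.inc χ)) d) := by
    by_cases hlp : l = p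
    · subst hlp
      have hK := hKDP Γ A l (ρ.comp X.proj) X.inc.range
        (gst l M (ρ.comp X.proj) X.inc.range (omega (ext0 X.inc χ)) d) hfr
      have h3 : (((l : ℤ) ^ 2 * (Nat.card A : ℤ)) * e) * (Nat.card X.inc.range : ℤ) ∣
          ∑ᶠ Q ∈ QH l (ρ.comp X.proj) X.inc.range, cSum l (X.inc.range ⊓ cz Q) ⊥ (cz Q)
            (gst l M (ρ.comp X.proj) X.inc.range (omega (ext0 X.inc χ)) d) := by
        refine hKOS l Γ A (ρ.comp X.proj) X.inc.range hfr
          (fun Q => cSum l (X.inc.range ⊓ cz Q) ⊥ (cz Q)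
            (gst l M (ρ.comp X.proj) X.inc.range (omega (ext0 X.inc χ)) d)) _ ?_ ?_
        · intro u _ Q _
          exact hKCI l M Γ A (ρ.comp X.proj) X.inc.range X.inc.range hnor hnor _ d u Q
        · intro Q hQ
          obtain ⟨n, hn1, hn2⟩ := hKEQ Γ A l M hM hp hN (ρ.comp X.proj) X.inc.range X.inc.range
            hfr le_rfl (omega (ext0 X.inc χ)) d Q hQ
          obtain ⟨m, hm⟩ := hn2 e (fun E' _ _ Y hop b hb => hE _ _ Y hop b hb (d - 1) (by omega))
          refine ⟨m, ?_⟩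
          change cSum l (X.inc.range ⊓ cz Q) ⊥ (cz Q) _ = _
          rw [hn1, hm]
          ring
      have h4 : ((Nat.card A : ℤ) * (Nat.card G : ℤ)) * ((l : ℤ) * e) ∣
          (((l : ℤ) ^ 2 * (Nat.card A : ℤ)) * e) * (Nat.card X.inc.range : ℤ) := by
        rw [hcR]
        exact ⟨l, by ring⟩
      have h5 := dvd_add h1 (h4.trans h3)
      rw [hK, sub_add_cancel] at h5
      exact h5
    · rw [← hKDL Γ A p l (ρ.comp X.proj) X.inc.range _ hlp hfr]
      exact h1
  rw [hKEG G Γ A' A X ρ p l M hM hp hN hfr hG χ hχ hst d,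
    ← mul_assoc (Nat.card A : ℤ) (Nat.card G : ℤ) (∑ᶠ _, _)] at h2
  refine (mul_dvd_mul_iff_left ?_).1 h2
  have hA0 : (Nat.card A : ℤ) ≠ 0 := by exact_mod_cast Nat.card_pos.ne'
  have hG0 : (Nat.card G : ℤ) ≠ 0 := by exact_mod_cast Nat.card_pos.ne'
  exact mul_ne_zero hA0 hG0

end Pool.Agent.KZ
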